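import Pool.Agent.Lib.MP_4b8564_nt.GT.ProgK

/-!
Progressions of primes in a dense part of a class, uniformly in a modulus without small primes.
-/

open Finset
open scoped Classical

noncomputable section

namespace Pool.Agent.FS.LargeCof

open Pool.Agent.Lib.MP_4b8564_nt Pool.Agent.Lib.MP_4b8564_nt.GT
open Pool.Agent.Lib.MP_4b8564_nt.GT.ProgKAux

theorem ap_of_card (k : ℕ) (hk : 2 ≤ k) (N : ℕ) [NeZero N] (A : Finset ℕ)
    (hA : ∀ n ∈ A, 2 * n < N) (h : N < (TT k N A).card) :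
    ∃ u e : ℕ, 0 < e ∧ ∀ j < k, u + j * e ∈ A := by
  obtain ⟨p, hp, hp2⟩ : ∃ p ∈ TT k N A, p.2 ≠ 0 := by
    by_contra hc
    push Not at hc
    have : (TT k N A).card ≤ (univ : Finset (ZMod N)).card := by
      refine card_le_card_of_injOn (fun p => p.1) (fun _ _ => mem_coe.2 (mem_univ _)) ?_
      intro p hp q hq h
      exact Prod.ext h (by rw [hc p (mem_coe.1 hp), hc q (mem_coe.1 hq)])
    rw [card_univ, ZMod.card] at this
    omega
  have hT : ∀ j < k, (p.1 + (j : ZMod N) * p.2).val ∈ A := (mem_filter.1 hp).2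
  have hP := prog p.1 p.2 k fun j hj => hA _ (hT j hj)
  rcases lt_trichotomy p.1.val (p.1 + p.2).val with h1 | h1 | h1
  · refine ⟨p.1.val, (p.1 + p.2).val - p.1.val, by omega, fun j hj => ?_⟩
    have e : p.1.val + j * ((p.1 + p.2).val - p.1.val) = (p.1 + (j : ZMod N) * p.2).val := by
      have := hP j hj
      zify [h1.le]
      exact this.symm
    rw [e]
    exact hT j hj
  · exfalso
    apply hp2
    have := ZMod.val_injective N h1
    simpa using this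
  · refine ⟨(p.1 + ((k - 1 : ℕ) : ZMod N) * p.2).val, p.1.val - (p.1 + p.2).val, by omega,
      fun j hj => ?_⟩
    have e : (p.1 + ((k - 1 : ℕ) : ZMod N) * p.2).val + j * (p.1.val - (p.1 + p.2).val)
        = (p.1 + ((k - 1 - j : ℕ) : ZMod N) * p.2).val := by
      have a1 := hP (k - 1) (by omega)
      have a2 := hP (k - 1 - j) (by omega)
      have a3 : ((k - 1 - j : ℕ) : ℤ) = ((k - 1 : ℕ) : ℤ) - j := Nat.cast_sub (by omega)
      rw [a3] at a2
      apply Nat.cast_injective (R := ℤ)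
      rw [Nat.cast_add, Nat.cast_mul, Nat.cast_sub h1.le, a1, a2]
      ring
    rw [e]
    exact hT _ (by omega)

theorem GG_le (w Y : ℕ) : Sg.GG (Sg.PP w Y) Y ≤ Y := by
  have hP : ∀ p ∈ Sg.PP w Y, p.Prime := fun p hp => (mem_filter.1 hp).2
  calc Sg.GG (Sg.PP w Y) Y ≤ ∑ _S ∈ Sg.fam (Sg.PP w Y) Y, (1 : ℝ) := by
        refine sum_le_sum fun S hS => ?_
        have hS' := (Sg.ExpandAux.mem_fam.1 hS).1
        refine prod_le_one (fun p hp => ?_) fun p hp => ?_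
        · have : (2 : ℝ) ≤ p := by exact_mod_cast (hP p (hS' hp)).two_le
          exact div_nonneg zero_le_one (by linarith)
        · have : (2 : ℝ) ≤ p := by exact_mod_cast (hP p (hS' hp)).two_le
          rw [div_le_one (by linarith)]
          linarith
    _ ≤ Y := by
        rw [sum_const, nsmul_eq_mul, mul_one]
        exact_mod_cast LFcoreAux.card_fam _ hP Y

theorem ugt (k : ℕ) (hk : 2 ≤ k) (δ : ℝ) (hδ : 0 < δ) : ∃ w Y₀ N₀ : ℕ,
    ∀ (Y g b N : ℕ) (A : Finset ℕ), N.Prime → N₀ ≤ N → Y₀ ≤ Y → Y ^ (8 * (k * 2 ^ k) + 2) ≤ N →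
      (∀ l : ℕ, l.Prime → l ∣ g → Y < l) →
      (∀ n ∈ A, 2 * n < N ∧ (primorial w * g * n + b).Prime ∧ Y < primorial w * g * n + b) →
      δ * N ≤ (Nat.totient (primorial w) : ℝ) / primorial w * Real.log Y * A.card →
      ∃ u e : ℕ, 0 < e ∧ ∀ j < k, u + j * e ∈ A := by
  obtain ⟨η, hη, -, c, hc, N₀, hT⟩ := relSz k hk δ hδ
  obtain ⟨w, R₀, hw⟩ := lf_psi k hk η hη
  refine ⟨w, R₀ + ⌈1 / c⌉₊ + 1, N₀, fun Y g b N A hNp hN hY hYN hg hA hd => ?_⟩
  have : NeZero N := ⟨hNp.ne_zero⟩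
  have hY1 : 1 ≤ Y := by omega
  have hPp : ∀ p ∈ Sg.PP w Y, p.Prime := fun p hp => (mem_filter.1 hp).2
  have hPY : ∀ p ∈ Sg.PP w Y, p ≤ Y := fun p hp => (mem_Ioc.1 (mem_filter.1 hp).1).2
  have hP : ∀ p ∈ Sg.PP w Y, 2 ≤ p := fun p hp => (hPp p hp).two_le
  have hcop : Nat.Coprime g (∏ p ∈ Sg.PP w Y, p) := by
    refine Nat.Coprime.prod_right fun p hp => Nat.Coprime.symm ?_
    refine (Nat.Prime.coprime_iff_not_dvd (hPp p hp)).2 fun h => ?_
    have := hg p (hPp p hp) h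
    have := hPY p hp
    omega
  obtain ⟨b', hb'⟩ : ∃ b' : ℕ, g * b' ≡ b [MOD ∏ p ∈ Sg.PP w Y, p] := by
    have h0 : (∏ p ∈ Sg.PP w Y, p) ≠ 0 := prod_ne_zero_iff.2 fun p hp => (hPp p hp).ne_zero
    obtain ⟨m, -, hm⟩ := Nat.exists_mul_mod_eq_of_coprime b hcop h0
    exact ⟨m, hm⟩
  have hf := hw N hNp Y b' (by omega) hYN
  have hG1 := Sg.one_le_GG (Sg.PP w Y) hP Y hY1
  have hG0 : 0 < Sg.GG (Sg.PP w Y) Y := one_pos.trans_le hG1
  have h0 : ∀ x : ZMod N, 0 ≤ nu w Y b' N x := fun x => div_nonneg (sq_nonneg _) hG0.le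
  have hval : ∀ x : ZMod N, x.val ∈ A → nu w Y b' N x = Sg.GG (Sg.PP w Y) Y := by
    intro x hx
    obtain ⟨-, hp, hlt⟩ := hA _ hx
    rw [nu, Sg.beta_eq_GG _ _ _ fun p hpP hd => ?_, sq, mul_div_assoc, div_self hG0.ne', mul_one]
    have h1 : g * b' ≡ b [MOD p] := hb'.of_dvd (dvd_prod_of_mem _ hpP)
    have h2 : g * (primorial w * x.val + b') ≡ primorial w * g * x.val + b [MOD p] := by
      rw [show g * (primorial w * x.val + b') = primorial w * g * x.val + g * b' by ring]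
      exact h1.add_left _
    have h3 : p ∣ primorial w * g * x.val + b :=
      (h2.dvd_iff dvd_rfl).1 (Dvd.dvd.mul_left hd g)
    have h4 := (Nat.prime_dvd_prime_iff_eq (hPp p hpP) hp).mp h3
    have h5 := hPY p hpP
    omega
  have hN0 : (0 : ℝ) < N := by exact_mod_cast hNp.pos
  have hlam := hT N hNp hN (nu w Y b' N) (fun x => if x.val ∈ A then Sg.GG (Sg.PP w Y) Y else 0)
    (fun x => by
      by_cases h : x.val ∈ A
      · simp [h, hG0.le, hval x h]
      · simp [h, h0 x])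
    (by
      unfold av
      rw [sum_f N A (fun n hn => by have := (hA n hn).1; omega), ZMod.card, le_div_iff₀ hN0]
      exact hd.trans (mul_le_mul_of_nonneg_right (Sg.GG_ge w Y hY1) (Nat.cast_nonneg _))) hf
  rw [lam_f, le_div_iff₀ (by positivity)] at hlam
  refine ap_of_card k hk N A (fun n hn => (hA n hn).1) ?_
  by_contra hcon
  have h1 : ((TT k N A).card : ℝ) ≤ N := by exact_mod_cast not_lt.1 hcon
  have h2 : Sg.GG (Sg.PP w Y) Y ^ k ≤ (Y : ℝ) ^ k := pow_le_pow_left₀ hG0.le (GG_le w Y) k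
  have h3 : c * (N : ℝ) ^ 2 ≤ (Y : ℝ) ^ k * N :=
    hlam.trans (mul_le_mul h2 h1 (Nat.cast_nonneg _) (by positivity))
  have h4 : c * N ≤ (Y : ℝ) ^ k := by
    rw [sq, ← mul_assoc] at h3
    exact le_of_mul_le_mul_right h3 hN0
  have h5 : Y ^ k * Y ≤ N := by
    rw [← pow_succ]
    refine le_trans (Nat.pow_le_pow_right hY1 ?_) hYN
    have : 1 ≤ 2 ^ k := Nat.one_le_two_pow
    nlinarith
  have h6 : (Y : ℝ) ^ k * Y ≤ N := by exact_mod_cast h5
  have hY0 : (0 : ℝ) < (Y : ℝ) ^ k := by positivity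
  have h7 : c * Y ≤ 1 := by
    have : (Y : ℝ) ^ k * (c * Y) ≤ (Y : ℝ) ^ k * 1 := by nlinarith
    exact le_of_mul_le_mul_left this hY0
  have h8 : 1 / c < Y := by
    have a1 := Nat.le_ceil (1 / c)
    have a2 : ((⌈1 / c⌉₊ + 1 : ℕ) : ℝ) ≤ Y := by exact_mod_cast (by omega)
    push_cast at a2
    linarith
  rw [div_lt_iff₀ hc] at h8
  linarith

end Pool.Agent.FS.LargeCof
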