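import Pool.Agent.FS.LargeCof.B
import Pool.Agent.FS.LargeCof.C
import Pool.Agent.Lib.MP_4b8564_nt.GT.Colour

/-!
Both signs of the Kloosterman sum for moduli `g t p q`, uniformly in the cofactor `g`.
-/

open Finset
open scoped Classical

noncomputable section

namespace Pool.Agent.FS.LargeCof

open Pool.Agent.Lib.MP_4b8564_nt Pool.Agent.Lib.MP_4b8564_nt.GT

theorem good_count (x : ℕ) (hx : 16 ≤ Real.log x) (B₁ B₂ : ℕ → Prop)
    (c1 : Real.log x * (((range (x + 1)).filter fun p : ℕ => p.Prime ∧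
      (x : ℝ) < p * Real.log x ^ 2 ∧ B₁ p).card : ℝ) ≤ x / 16)
    (c2 : Real.log x * (((range (x + 1)).filter fun p : ℕ => p.Prime ∧
      (x : ℝ) < p * Real.log x ^ 2 ∧ B₂ p).card : ℝ) ≤ x / 16) :
    (x : ℝ) ≤ 4 * Real.log x * (((range (x + 1)).filter fun p : ℕ => p.Prime ∧
      (x : ℝ) < p * Real.log x ^ 2 ∧ ¬ B₁ p ∧ ¬ B₂ p).card : ℝ) := by
  set L := Real.log x with hL
  have hL0 : 0 < L := by linarith
  have hx0 : (0 : ℝ) < x := by
    rcases Nat.eq_zero_or_pos x with h | h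
    · rw [hL, h] at hx
      norm_num at hx
    · exact_mod_cast h
  have hx1 : (1 : ℝ) ≤ x := by exact_mod_cast (show 0 < x by exact_mod_cast hx0)
  have hexp : L ^ 3 / 6 ≤ x := by
    have h1 := Real.pow_div_factorial_le_exp L hL0.le 3
    rw [hL, Real.exp_log hx0] at h1
    simpa [Nat.factorial] using h1
  have hLx : 16 * L ≤ x := by nlinarith [mul_nonneg hL0.le (sub_nonneg.2 hx), sq_nonneg (L - 16)]
  have hpi := Chebyshev.pi_ge x
  rw [← hL, div_le_iff₀ hL0] at hpi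
  have hl2 := Real.log_two_gt_d9
  have hl2' := Real.log_two_lt_d9
  have hl1 : Real.log ((x : ℝ) + 1) ≤ 2 * L := by
    have h1 : Real.log ((x : ℝ) + 1) ≤ Real.log (2 * x) :=
      Real.log_le_log (by linarith) (by linarith)
    rw [Real.log_mul (by norm_num) hx0.ne', ← hL] at h1
    linarith
  set S := (range (x + 1)).filter fun p : ℕ => p.Prime ∧ (x : ℝ) < p * L ^ 2 ∧ ¬ B₁ p ∧ ¬ B₂ p
  set S1 := (range (x + 1)).filter fun p : ℕ => p.Prime ∧ (x : ℝ) < p * L ^ 2 ∧ B₁ p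
  set S2 := (range (x + 1)).filter fun p : ℕ => p.Prime ∧ (x : ℝ) < p * L ^ 2 ∧ B₂ p
  have h1 : Nat.primeCounting x = ((range (x + 1)).filter Nat.Prime).card := by
    rw [Nat.primeCounting, Nat.primeCounting', Nat.count_eq_card_filter_range]
  have h2 : (range (x + 1)).filter Nat.Prime ⊆
      (S ∪ range (⌊(x : ℝ) / L ^ 2⌋₊ + 1)) ∪ (S1 ∪ S2) := by
    intro m hm
    rw [mem_filter] at hm
    simp only [S, S1, S2, mem_union, mem_filter]
    by_cases h : (x : ℝ) < m * L ^ 2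
    · by_cases a : B₁ m
      · exact Or.inr (Or.inl ⟨hm.1, hm.2, h, a⟩)
      · by_cases b : B₂ m
        · exact Or.inr (Or.inr ⟨hm.1, hm.2, h, b⟩)
        · exact Or.inl (Or.inl ⟨hm.1, hm.2, h, a, b⟩)
    · refine Or.inl (Or.inr (mem_range.2 (Nat.lt_succ_of_le (Nat.le_floor ?_))))
      rw [le_div_iff₀ (by positivity)]
      exact not_lt.1 h
  have h3 : Nat.primeCounting x ≤ S.card + (⌊(x : ℝ) / L ^ 2⌋₊ + 1) + (S1.card + S2.card) := by
    rw [h1]
    refine (card_le_card h2).trans ((card_union_le _ _).trans (add_le_add ?_ (card_union_le _ _)))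
    exact (card_union_le _ _).trans (by rw [card_range])
  have h4 : (Nat.primeCounting x : ℝ) ≤
      S.card + ((x : ℝ) / L ^ 2 + 1) + (S1.card + S2.card) := by
    have a : (Nat.primeCounting x : ℝ) ≤
        S.card + ((⌊(x : ℝ) / L ^ 2⌋₊ : ℝ) + 1) + (S1.card + S2.card) := by exact_mod_cast h3
    have b := Nat.floor_le (show (0 : ℝ) ≤ (x : ℝ) / L ^ 2 by positivity)
    linarith
  have h5 : (x : ℝ) / L ^ 2 * L ≤ x / 16 := by
    rw [show (x : ℝ) / L ^ 2 * L = x / L by field_simp]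
    exact div_le_div_of_nonneg_left hx0.le (by norm_num) hx
  have h6 := mul_le_mul_of_nonneg_right h4 hL0.le
  nlinarith

theorem pigeon (S : Finset ℕ) (M Q : ℕ) (hM : 0 < M) (hQ : 0 < Q)
    (hS : ∀ p ∈ S, p.Prime ∧ M < p) : ∃ b a : ℕ, ∃ A : Finset ℕ,
      (∀ n ∈ A, M * n + b ∈ S ∧ (M * n + b) % Q = a) ∧ S.card ≤ Nat.totient M * Q * A.card := by
  set T := ((range M).filter fun b => Nat.Coprime M b) ×ˢ range Q with hT
  have hTc : T.card = Nat.totient M * Q := by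
    rw [hT, card_product, card_range, Nat.totient_eq_card_coprime]
  have hmaps : ∀ m ∈ S, (m % M, m % Q) ∈ T := by
    intro m hm
    rw [hT, mem_product, mem_filter, mem_range, mem_range]
    refine ⟨⟨Nat.mod_lt _ hM, ?_⟩, Nat.mod_lt _ hQ⟩
    have hc : Nat.Coprime m M :=
      (Nat.Prime.coprime_iff_not_dvd (hS m hm).1).2 fun h => by
        have := Nat.le_of_dvd hM h
        have := (hS m hm).2
        omega
    have : Nat.gcd (m % M) M = 1 := by rw [← Nat.gcd_rec, Nat.gcd_comm]; exact hc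
    exact Nat.Coprime.symm this
  have hTne : T.Nonempty := by
    rw [← card_pos, hTc]
    exact Nat.mul_pos (Nat.totient_pos.2 hM) hQ
  obtain ⟨z, -, hz⟩ :=
    exists_max_image T (fun z => (S.filter fun m => (m % M, m % Q) = z).card) hTne
  have hSle : S.card ≤ Nat.totient M * Q * (S.filter fun m => (m % M, m % Q) = z).card := by
    rw [card_eq_sum_card_fiberwise (f := fun m => (m % M, m % Q)) (t := T)
      (fun m hm => hmaps m hm), ← hTc]
    calc _ ≤ ∑ _c ∈ T, (S.filter fun m => (m % M, m % Q) = z).card :=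
          sum_le_sum fun c hc => hz c hc
      _ = _ := by rw [sum_const, smul_eq_mul]
  have hrec : ∀ m ∈ S.filter (fun m => (m % M, m % Q) = z), M * (m / M) + z.1 = m := by
    intro m hm
    rw [← (mem_filter.1 hm).2]
    exact Nat.div_add_mod m M
  refine ⟨z.1, z.2, (S.filter fun m => (m % M, m % Q) = z).image (fun m => m / M), ?_, ?_⟩
  · intro n hn
    obtain ⟨m, hm, rfl⟩ := mem_image.1 hn
    rw [hrec m hm]
    exact ⟨(mem_filter.1 hm).1, by rw [← (mem_filter.1 hm).2]⟩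
  · rw [card_image_of_injOn]
    · exact hSle
    · intro m hm m' hm' h
      have h' : m / M = m' / M := h
      rw [← hrec m hm, ← hrec m' hm', h']

theorem finish {w g p d : ℕ} (hg : Squarefree g) (hgw : ∀ l : ℕ, l.Prime → l ∣ g → w < l)
    (hp : g * w < p) (hd : 0 < d) (hgd : g ∣ d) (hwd : primorial w ∣ d)
    (hpr : ∀ i ≤ w * w, (p + i * d).Prime)
    (h1 : ¬ ∀ t ∈ T3 w, 0 < (1 : ℝ) * R (g * t) (p * p))
    (h2 : ¬ ∀ t ∈ T3 w, 0 < (-1 : ℝ) * R (g * t) (p * p)) (ε : ℝ) (hε : ε ≠ 0) :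
    ∃ t i i' : ℕ, t.Prime ∧ t ≤ w ∧ i < i' ∧ i' ≤ w * w ∧
      Squarefree (g * t * (p + i * d) * (p + i' * d)) ∧
      0 < ε * Sg.KS (g * t * (p + i * d) * (p + i' * d)) := by
  have g0 : 0 < g := Nat.pos_of_ne_zero hg.ne_zero
  have pp : p.Prime := by simpa using hpr 0 (Nat.zero_le _)
  have key : ∀ t ∈ T3 w, t.Prime ∧ Odd t ∧ t ≤ w ∧ Squarefree (g * t) ∧ g * t ∣ d ∧ g * t < p ∧
      R (g * t) (p * p) ≠ 0 := by
    intro t ht
    obtain ⟨a1, a2, a3, a4⟩ := mem_filter.1 ht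
    have a5 : t ≤ w := Nat.lt_succ_iff.1 (mem_range.1 a1)
    have a6 : Nat.Coprime g t := Nat.Coprime.symm ((Nat.Prime.coprime_iff_not_dvd a2).2 fun h => by
      have := hgw t a2 h
      omega)
    have a7 : Squarefree (g * t) := (Nat.squarefree_mul a6).2 ⟨hg, a2.prime.squarefree⟩
    have a8 : g * t < p := lt_of_le_of_lt (Nat.mul_le_mul_left _ a5) hp
    have a9 := RoughAux.cop (Nat.mul_pos g0 a2.pos) pp a8
    refine ⟨a2, Nat.odd_iff.2 (by omega), a5, a7,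
      a6.mul_dvd_of_dvd_of_dvd hgd (((Nat.Prime.dvd_primorial_iff a2).2 a5).trans hwd), a8,
      RoughAux.R_ne_sqf _ a7 _ (Nat.Coprime.mul_left a9.symm a9.symm)⟩
  push Not at h1 h2
  obtain ⟨u, hu, su⟩ := h1
  obtain ⟨t, ht, st⟩ := h2
  obtain ⟨t1, t2, t3, t4, t5, t6, t7⟩ := key t ht
  obtain ⟨u1, u2, u3, u4, u5, u6, u7⟩ := key u hu
  have htu : t * u ≤ w * w := Nat.mul_le_mul t3 u3
  obtain ⟨m, i, i', hm, hi, hi', hs⟩ := ColourAux.pair (m := g * t) (m' := g * u) t2 u2 (by ring)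
    (Nat.mul_pos g0 t1.pos) (Nat.mul_pos g0 u1.pos) t5 u5 t6 u6 hd
    (fun i hi => hpr i (hi.trans htu)) (lt_of_le_of_ne (by linarith) t7.symm)
    (lt_of_le_of_ne (by linarith) u7) ε hε
  obtain ⟨v, v1, v3, v4, v6, rfl⟩ : ∃ v : ℕ, v.Prime ∧ v ≤ w ∧ Squarefree (g * v) ∧ g * v < p ∧
      m = g * v := by
    rcases hm with rfl | rfl
    · exact ⟨t, t1, t3, t4, t6, rfl⟩
    · exact ⟨u, u1, u3, u4, u6, rfl⟩
  have p1 := hpr i (by omega)
  have p2 := hpr i' (by omega)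
  have m0 : 0 < g * v := Nat.mul_pos g0 v1.pos
  have hlt : p + i * d < p + i' * d := by
    have := Nat.mul_lt_mul_of_pos_right hi hd
    omega
  have c1 := RoughAux.cop m0 p1 (by omega)
  have c2 : Nat.Coprime (g * v * (p + i * d)) (p + i' * d) :=
    Nat.Coprime.mul_left (RoughAux.cop m0 p2 (by omega)) (RoughAux.cop p1.pos p2 hlt)
  have sq : Squarefree (g * v * (p + i * d) * (p + i' * d)) :=
    (Nat.squarefree_mul c2).2 ⟨(Nat.squarefree_mul c1).2 ⟨v4, p1.prime.squarefree⟩,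
      p2.prime.squarefree⟩
  refine ⟨v, i, i', v1, v3, hi, hi'.trans htu, sq, ?_⟩
  have : NeZero (g * v * (p + i * d) * (p + i' * d)) := ⟨sq.ne_zero⟩
  rwa [Sg.KlooAux.KS_eq_S, ← R_eq]

/-- all labelled sums at `p` have the sign of `σ` -/
def Bad (w g : ℕ) (σ : ℝ) (p : ℕ) : Prop := ∀ t ∈ T3 w, 0 < σ * R (g * t) (p * p)

theorem main (E : ℕ) : ∃ y Z₀ : ℕ, ∀ Z g x : ℕ, Z₀ ≤ Z → Squarefree g →
    (∀ l : ℕ, l.Prime → l ∣ g → Z < l) → g * Z ≤ x → x ≤ Z ^ E → ∀ ε : ℝ, ε ≠ 0 →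
    ∃ t p q : ℕ, t.Prime ∧ p.Prime ∧ q.Prime ∧ t ≤ y ∧ (x : ℝ) < p * Real.log x ^ 2 ∧ p < q ∧
      q ≤ x ∧ Squarefree (g * t * p * q) ∧ 0 < ε * Sg.KS (g * t * p * q) := by
  obtain ⟨D, hD⟩ : ∃ D : ℝ, D = (E : ℝ) + 1 := ⟨_, rfl⟩
  have hE0 : (0 : ℝ) ≤ E := Nat.cast_nonneg _
  have hD1 : 1 ≤ D := by linarith
  obtain ⟨w, hw, hρ⟩ := small_prod (1 / (1152 * D)) (by positivity)
  obtain ⟨K, hK⟩ : ∃ K, K = w * w + 1 := ⟨_, rfl⟩
  have hK2 : 2 ≤ K := by nlinarith
  obtain ⟨F, hF⟩ : ∃ F, F = 8 * (K * 2 ^ K) + 2 := ⟨_, rfl⟩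
  obtain ⟨Q, hQ⟩ : ∃ Q, Q = primorial w := ⟨_, rfl⟩
  have hQ0 : 0 < Q := hQ ▸ primorial_pos w
  have hQr : (0 : ℝ) < Q := by exact_mod_cast hQ0
  obtain ⟨v, Y₀, N₀, hU⟩ := ugt K hK2 (1 / (144 * D * (F + 1) * Q)) (by positivity)
  rw [← hF] at hU
  obtain ⟨W, hW⟩ : ∃ W, W = primorial v := ⟨_, rfl⟩
  have hW0 : 0 < W := hW ▸ primorial_pos v
  rw [← hW] at hU
  obtain ⟨B, hB⟩ : ∃ B, B = (2 ^ F + Y₀) ^ F + 2 * Q + w + W + N₀ + 81 * (E + 1) ^ 2 :=
    ⟨_, rfl⟩
  refine ⟨w, (2 ^ 8 + B) ^ 8, fun Z g x hZ hg hgZ hx1 hx2 ε hε => ?_⟩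
  obtain ⟨Y, hY, hY8, hY9⟩ := MajorKAux.exists_root 8 B Z (by norm_num) hZ
  obtain ⟨Y', hY', hY'1, hY'2⟩ := MajorKAux.exists_root F Y₀ Y (by omega) (by omega)
  have g0 : 0 < g := Nat.pos_of_ne_zero hg.ne_zero
  have hY1 : 1 ≤ Y := by omega
  have h2F : 0 < 2 ^ F := by positivity
  have hY'0 : 1 ≤ Y' := by omega
  have hY'Y : Y' ≤ Y := (Nat.le_self_pow (by omega) Y').trans hY'1
  have hYZ : Y ≤ Z := (Nat.le_self_pow (by norm_num) Y).trans hY8
  have hZx : Z ≤ x := (Nat.le_mul_of_pos_left Z g0).trans hx1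
  have hYr : (256 : ℝ) ≤ Y := by exact_mod_cast (by omega)
  have hgx : g * Y ^ 8 ≤ x := (Nat.mul_le_mul_left g hY8).trans hx1
  have hx0 : 0 < x := by omega
  have hxr : (0 : ℝ) < x := by exact_mod_cast hx0
  have hlY : 2 ≤ Real.log Y := by
    have a : Real.log ((2 : ℝ) ^ 8) ≤ Real.log Y := Real.log_le_log (by norm_num) (by linarith)
    rw [Real.log_pow] at a
    have := Real.log_two_gt_d9
    push_cast at a
    linarith
  have hL16 : 16 ≤ Real.log x := by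
    have a : ((Y : ℝ)) ^ 8 ≤ x := by exact_mod_cast hY8.trans hZx
    have b := Real.log_le_log (by positivity) a
    rw [Real.log_pow] at b
    push_cast at b
    linarith
  have hL9 : Real.log x ≤ 9 * D * Real.log Y := by
    have a : (x : ℝ) ≤ ((Y : ℝ) ^ 9) ^ E := by
      exact_mod_cast hx2.trans (Nat.pow_le_pow_left hY9 E)
    have b := Real.log_le_log hxr a
    rw [Real.log_pow, Real.log_pow] at b
    push_cast at b
    nlinarith
  have hlY' : Real.log Y ≤ (F + 1) * Real.log Y' := by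
    have a : (Y : ℝ) ≤ (Y' : ℝ) ^ (F + 1) := by exact_mod_cast hY'2
    have b := Real.log_le_log (by linarith) a
    rwa [Real.log_pow, Nat.cast_succ] at b
  have big : ∀ p : ℕ, (x : ℝ) < p * Real.log x ^ 2 → g * Y < p := by
    intro p hp
    have a1 : Real.log Y ≤ Y := (Real.log_le_sub_one_of_pos (by linarith)).trans (by linarith)
    have a2 : Real.log x ≤ 9 * D * Y := hL9.trans (by gcongr)
    have a3 : 81 * D ^ 2 ≤ Y := by
      have : 81 * (E + 1) ^ 2 ≤ Y := by omega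
      rw [hD]
      exact_mod_cast this
    have a4 : Real.log x ^ 2 ≤ (Y : ℝ) ^ 3 := by
      have := pow_le_pow_left₀ (by linarith) a2 2
      have b : (9 * D * Y) ^ 2 = 81 * D ^ 2 * (Y : ℝ) ^ 2 := by ring
      have c : 81 * D ^ 2 * (Y : ℝ) ^ 2 ≤ Y * (Y : ℝ) ^ 2 := by gcongr
      nlinarith
    have a5 : (x : ℝ) < p * (Y : ℝ) ^ 3 :=
      hp.trans_le (mul_le_mul_of_nonneg_left a4 (Nat.cast_nonneg _))
    have a6 : x < p * Y ^ 3 := by exact_mod_cast a5
    have a7 : g * Y * Y ^ 3 ≤ g * Y ^ 8 := by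
      rw [mul_assoc, ← pow_succ']
      exact Nat.mul_le_mul_left g (Nat.pow_le_pow_right hY1 (by norm_num))
    exact lt_of_mul_lt_mul_right (a7.trans_lt (hgx.trans_lt a6)) (Nat.zero_le _)
  have bad : ∀ σ : ℝ, σ ≠ 0 → Real.log x * (((range (x + 1)).filter fun p : ℕ => p.Prime ∧
      (x : ℝ) < p * Real.log x ^ 2 ∧ Bad w g σ p).card : ℝ) ≤ x / 16 := by
    intro σ hσ
    have a1 : primorial w * g * (2 * Y ^ 6) ≤ x := by
      refine le_trans ?_ hgx
      rw [← hQ, show Q * g * (2 * Y ^ 6) = g * (2 * Q * Y ^ 6) by ring]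
      refine Nat.mul_le_mul_left g ?_
      calc 2 * Q * Y ^ 6 ≤ Y * Y ^ 6 := Nat.mul_le_mul_right _ (by omega)
        _ = Y ^ 7 := by ring
        _ ≤ Y ^ 8 := Nat.pow_le_pow_right hY1 (by norm_num)
    have a2 := bad_primes w Y g x hw (by omega) g0
      (fun l hl hlg => hYZ.trans_lt (hgZ l hl hlg)) a1 σ hσ
    have a3 : (((range (x + 1)).filter fun p : ℕ => p.Prime ∧ (x : ℝ) < p * Real.log x ^ 2 ∧
        Bad w g σ p).card : ℝ) ≤
        (((range (x + 1)).filter fun p => p.Prime ∧ primorial w * g < p ∧ Y < p ∧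
          ∀ t ∈ T3 w, 0 < σ * R (g * t) (p * p)).card : ℝ) := by
      refine Nat.cast_le.2 (card_le_card fun p hp => ?_)
      obtain ⟨b1, b2, b3, b4⟩ := mem_filter.1 hp
      have b5 := big p b3
      have b6 : primorial w * g ≤ g * Y := by
        rw [← hQ, mul_comm]
        exact Nat.mul_le_mul_left g (by omega)
      exact mem_filter.2 ⟨b1, b2, by omega, (Nat.le_mul_of_pos_left Y g0).trans_lt b5, b4⟩
    have a4 := mul_le_mul hL9 a3 (Nat.cast_nonneg _) (by positivity)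
    have a5 : 8 * (∏ t ∈ T3 w, (((t : ℝ) - 2) / ((t : ℝ) - 1))) * x ≤ 8 * (1 / (1152 * D)) * x := by
      gcongr
    have a6 := mul_le_mul_of_nonneg_left (a2.trans a5) (show 0 ≤ 9 * D by positivity)
    have a7 : 9 * D * (8 * (1 / (1152 * D)) * x) = x / 16 := by
      field_simp
      ring
    rw [a7, ← mul_assoc] at a6
    exact a4.trans a6
  have hS := good_count x hL16 (Bad w g 1) (Bad w g (-1)) (bad 1 one_ne_zero) (bad (-1) (by norm_num))
  have hM0 : 0 < W * g := Nat.mul_pos hW0 g0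
  have hMY : W * g ≤ g * Y := by
    rw [mul_comm]
    exact Nat.mul_le_mul_left g (by omega)
  obtain ⟨b, a, A, hA, hc⟩ := pigeon ((range (x + 1)).filter fun p : ℕ => p.Prime ∧
      (x : ℝ) < p * Real.log x ^ 2 ∧ ¬ Bad w g 1 p ∧ ¬ Bad w g (-1) p) (W * g) Q hM0 hQ0
    fun p hp => ⟨(mem_filter.1 hp).2.1, hMY.trans_lt (big p (mem_filter.1 hp).2.2.1)⟩
  have hYn : Y ≤ x / (W * g) := by
    rw [Nat.le_div_iff_mul_le hM0]
    refine le_trans ?_ hgx
    calc Y * (W * g) ≤ Y * (g * Y) := Nat.mul_le_mul_left Y hMY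
      _ = g * Y ^ 2 := by ring
      _ ≤ g * Y ^ 8 := Nat.mul_le_mul_left g (Nat.pow_le_pow_right hY1 (by norm_num))
  obtain ⟨N, hNp, hN1, hN2⟩ :=
    Nat.exists_prime_lt_and_le_two_mul (2 * (x / (W * g))) (by omega)
  have hle : ∀ n ∈ A, W * g * n + b ≤ x := fun n hn =>
    Nat.lt_succ_iff.1 (mem_range.1 (mem_filter.1 (hA n hn).1).1)
  obtain ⟨u, e, he, hu⟩ := hU Y' g b N A hNp (by omega) (by omega) (by omega)
    (fun l hl hlg => (hY'Y.trans hYZ).trans_lt (hgZ l hl hlg))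
    (fun n hn => by
      obtain ⟨-, b2, b3, -⟩ := mem_filter.1 (hA n hn).1
      have b4 : n ≤ x / (W * g) := by
        rw [Nat.le_div_iff_mul_le hM0, mul_comm]
        have := hle n hn
        omega
      exact ⟨by omega, b2, (hY'Y.trans (Nat.le_mul_of_pos_left Y g0)).trans_lt (big _ b3)⟩)
    (by
      have c1 : Nat.totient (W * g) ≤ Nat.totient W * g := by
        rw [Nat.totient_mul (Nat.coprime_of_dvd fun l hl h1 h2 => by
          have := Nat.le_of_dvd hW0 h1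
          have := hgZ l hl h2
          omega)]
        exact Nat.mul_le_mul_left _ (Nat.totient_le g)
      have c2 : W * g * N ≤ 4 * x := by
        have := Nat.mul_div_le x (W * g)
        calc W * g * N ≤ W * g * (2 * (2 * (x / (W * g)))) := Nat.mul_le_mul_left _ hN2
          _ = 4 * (W * g * (x / (W * g))) := by ring
          _ ≤ 4 * x := by omega
      have c3 := hc.trans (Nat.mul_le_mul_right _ (Nat.mul_le_mul_right _ c1))
      have c4 := (Nat.cast_le (α := ℝ)).2 c3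
      have c5 := (Nat.cast_le (α := ℝ)).2 c2
      push_cast at c4 c5
      have c6 : Real.log x ≤ 9 * D * ((F + 1) * Real.log Y') := hL9.trans (by gcongr)
      have c7 := hS.trans (mul_le_mul (mul_le_mul_of_nonneg_left c6 (by norm_num)) c4
        (Nat.cast_nonneg _) (by linarith))
      have hWr : (0 : ℝ) < W := by exact_mod_cast hW0
      have hgr : (0 : ℝ) < g := by exact_mod_cast g0
      rw [div_mul_eq_mul_div, one_mul, div_le_iff₀ (by positivity), div_mul_eq_mul_div,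
        div_mul_eq_mul_div, div_mul_eq_mul_div, le_div_iff₀ hWr]
      refine le_of_mul_le_mul_left ?_ hgr
      calc (g : ℝ) * (N * W) = W * g * N := by ring
        _ ≤ 4 * x := c5
        _ ≤ 4 * (4 * (9 * D * ((F + 1) * Real.log Y')) * (Nat.totient W * g * Q * A.card)) :=
          mul_le_mul_of_nonneg_left c7 (by norm_num)
        _ = _ := by ring)
  have e0 : ∀ j, W * g * u + b + j * (W * g * e) = W * g * (u + j * e) + b := fun j => by ring
  have m0 := hA _ (hu 0 (by omega))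
  have m1 := hA _ (hu 1 (by omega))
  rw [← e0, zero_mul, add_zero] at m0
  rw [← e0, one_mul] at m1
  obtain ⟨-, -, n3, n4, n5⟩ := mem_filter.1 m0.1
  have hQd : primorial w ∣ W * g * e := by
    rw [← hQ]
    have : W * g * u + b ≡ W * g * u + b + W * g * e [MOD Q] := m0.2.trans m1.2.symm
    simpa using (Nat.modEq_iff_dvd' (Nat.le_add_right _ _)).1 this
  obtain ⟨t, i, i', f1, f2, f3, f4, f5, f6⟩ := finish (w := w) (p := W * g * u + b)
    (d := W * g * e) hg (fun l hl hlg => (show w ≤ Z by omega).trans_lt (hgZ l hl hlg))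
    ((Nat.mul_le_mul_left g (by omega)).trans_lt (big _ n3)) (Nat.mul_pos hM0 he)
    ⟨W * e, by ring⟩ hQd
    (fun i hi => by
      rw [e0]
      exact (mem_filter.1 (hA _ (hu i (by omega))).1).2.1) n4 n5 ε hε
  have q1 := mem_filter.1 (hA _ (hu i (by omega))).1
  have q2 := mem_filter.1 (hA _ (hu i' (by omega))).1
  rw [← e0] at q1 q2
  refine ⟨t, _, _, f1, q1.2.1, q2.2.1, f2, q1.2.2.1, ?_, Nat.lt_succ_iff.1 (mem_range.1 q2.1),
    f5, f6⟩
  have := Nat.mul_lt_mul_of_pos_right f3 (Nat.mul_pos hM0 he)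
  omega

end Pool.Agent.FS.LargeCof
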