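import Pool.Agent.Lib.MP_4b8564_nt.GT.Both

/-!
Classes in which all labelled sums have one sign are few.
-/

open Finset
open scoped Classical

noncomputable section

namespace Pool.Agent.FS.LargeCof

open Pool.Agent.Lib.MP_4b8564_nt Pool.Agent.Lib.MP_4b8564_nt.GT

/-- the primes `3 < t ≤ w` that are `3` modulo `4` -/
def T3 (w : ℕ) : Finset ℕ := (range (w + 1)).filter fun t => t.Prime ∧ t % 4 = 3 ∧ 3 < t

theorem sp_tail (f : ℕ → ℝ) (hf : Summable f) (ε : ℝ) (hε : 0 < ε) :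
    ∃ y : ℕ, 3 ≤ y ∧ ∀ T : Finset ℕ, (∀ t ∈ T, y < t) → ∑ t ∈ T, f t < ε := by
  obtain ⟨s, hs⟩ := summable_iff_vanishing_norm.1 hf ε hε
  refine ⟨max 3 (s.sup id), le_max_left _ _, fun T hT => ?_⟩
  have hd : Disjoint T s := by
    rw [Finset.disjoint_left]
    intro t ht hts
    have h1 : t ≤ s.sup id := Finset.le_sup (f := id) hts
    have h2 := hT t ht
    have h3 := le_max_right 3 (s.sup id)
    omega
  exact lt_of_le_of_lt (le_abs_self _) (hs T hd)

theorem sp_factor (n : ℕ) (hn : n % 4 = 3) : ∃ t : ℕ, t.Prime ∧ t % 4 = 3 ∧ t ∣ n := by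
  induction n using Nat.strong_induction_on with
  | _ n ih =>
    have hn1 : n ≠ 1 := by omega
    obtain ⟨p, hp, m, hm⟩ := Nat.exists_prime_and_dvd hn1
    by_cases h3 : p % 4 = 3
    · exact ⟨p, hp, h3, m, hm⟩
    · have hmod : (p % 4) * (m % 4) % 4 = 3 := by rw [← Nat.mul_mod, ← hm]; exact hn
      have hp4 : p % 4 < 4 := Nat.mod_lt _ (by norm_num)
      have hm4 : m % 4 < 4 := Nat.mod_lt _ (by norm_num)
      have hm3 : m % 4 = 3 := by
        generalize p % 4 = a at *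
        generalize m % 4 = b at *
        interval_cases a <;> interval_cases b <;> simp_all
      have hlt : m < n := by
        have h2 := hp.two_le
        have hm0 : 0 < m := by omega
        rw [hm]; nlinarith
      obtain ⟨t, ht, ht3, htm⟩ := ih m hlt hm3
      exact ⟨t, ht, ht3, hm ▸ Dvd.dvd.mul_left htm p⟩

theorem sp_ndvd (q j t : ℕ) (ht : t.Prime) (h : t ∣ (q + 1) * j + q) : ¬ t ∣ q + 1 := by
  intro h1
  have h2 : t ∣ q := (Nat.dvd_add_right (Dvd.dvd.mul_right h1 j)).1 h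
  have h3 : t ∣ 1 := (Nat.dvd_add_right h2).1 h1
  exact ht.one_lt.ne' (Nat.dvd_one.1 h3)

theorem sp_count (q J t : ℕ) (ht : t.Prime) :
    ((range J).filter fun j => t ∣ (q + 1) * j + q).card ≤ J / t + 1 := by
  have key : ∀ a b : ℕ, a ≤ b → t ∣ (q + 1) * a + q → t ∣ (q + 1) * b + q → a / t = b / t →
      a = b := by
    intro a b hab ha hb hq
    obtain ⟨d, rfl⟩ := Nat.exists_eq_add_of_le hab
    have h1 : (q + 1) * (a + d) + q = ((q + 1) * a + q) + (q + 1) * d := by ring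
    rw [h1] at hb
    have h2 : t ∣ (q + 1) * d := (Nat.dvd_add_right ha).1 hb
    have h3 : t ∣ d := (ht.dvd_mul.1 h2).resolve_left (sp_ndvd q a t ht ha)
    obtain ⟨e, rfl⟩ := h3
    rw [Nat.add_mul_div_left _ _ ht.pos] at hq
    have he : e = 0 := by omega
    simp [he]
  rw [← card_range (J / t + 1)]
  refine card_le_card_of_injOn (fun j => j / t) ?_ ?_
  · intro j hj
    have hj' : j < J := by
      have := (mem_filter.1 (Finset.mem_coe.1 hj)).1
      exact mem_range.1 this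
    have := Nat.div_le_div_right (c := t) hj'.le
    simp only [coe_range, Set.mem_Iio]
    omega
  · intro a ha b hb hab
    have ha' := (mem_filter.1 (Finset.mem_coe.1 ha)).2
    have hb' := (mem_filter.1 (Finset.mem_coe.1 hb)).2
    rcases le_total a b with h | h
    · exact key a b h ha' hb' hab
    · exact (key b a h hb' ha' hab.symm).symm

theorem sp_not_summable :
    ¬ Summable (fun t : ℕ => if t.Prime ∧ t % 4 = 3 ∧ 3 < t then (1 : ℝ) / t else 0) := by
  intro hf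
  obtain ⟨y, hy3, hy⟩ := sp_tail _ hf (1 / 4) (by norm_num)
  obtain ⟨q, hq⟩ : ∃ q : ℕ, q + 1 = 4 * y.factorial :=
    ⟨4 * y.factorial - 1, by have := y.factorial_pos; omega⟩
  have hQ : (0 : ℝ) < (q : ℝ) + 1 := by positivity
  obtain ⟨J, hJ3, hJ⟩ := sp_tail _ hf (1 / (2 * ((q : ℝ) + 1))) (by positivity)
  have hJ0 : (0 : ℝ) < J := by exact_mod_cast (by omega : 0 < J)
  set T : Finset ℕ := (range ((q + 1) * J + 1)).filter fun t => t.Prime ∧ t % 4 = 3 ∧ y < t
    with hT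
  have hsub : range J ⊆ T.biUnion fun t => (range J).filter fun j => t ∣ (q + 1) * j + q := by
    intro j hj
    have hmod : ((q + 1) * j + q) % 4 = 3 := by
      have h1 : (q + 1) * j = 4 * (y.factorial * j) := by rw [hq]; ring
      omega
    obtain ⟨t, ht, ht3, htd⟩ := sp_factor _ hmod
    have hyt : y < t := by
      by_contra hle
      refine sp_ndvd q j t ht htd ?_
      rw [hq]
      exact Dvd.dvd.mul_left ((ht.dvd_factorial).2 (not_lt.1 hle)) 4
    have hle : t ≤ (q + 1) * j + q := Nat.le_of_dvd (by omega) htd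
    have hj' : j + 1 ≤ J := mem_range.1 hj
    have h2 : (q + 1) * (j + 1) ≤ (q + 1) * J := Nat.mul_le_mul_left _ hj'
    have h3 : (q + 1) * (j + 1) = (q + 1) * j + q + 1 := by ring
    refine mem_biUnion.2 ⟨t, mem_filter.2 ⟨mem_range.2 (by omega), ht, ht3, hyt⟩,
      mem_filter.2 ⟨hj, htd⟩⟩
  have h1 : J ≤ ∑ t ∈ T, (J / t + 1) := by
    calc J = (range J).card := (card_range J).symm
      _ ≤ _ := card_le_card hsub
      _ ≤ _ := card_biUnion_le
      _ ≤ _ := sum_le_sum fun t ht => sp_count q J t (mem_filter.1 ht).2.1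
  have h2 : (J : ℝ) ≤ ∑ t ∈ T, (((J / t : ℕ) : ℝ) + 1) := by exact_mod_cast h1
  have hA := hy T fun t ht => (mem_filter.1 ht).2.2.2
  have hB := hJ (T.filter fun t => J < t) fun t ht => (mem_filter.1 ht).2
  rw [sum_filter] at hB
  have h3 : ∑ t ∈ T, (((J / t : ℕ) : ℝ) + 1) ≤
      ∑ t ∈ T, (2 * J * (if t.Prime ∧ t % 4 = 3 ∧ 3 < t then (1 : ℝ) / t else 0) +
        ((q : ℝ) + 1) * J * (if J < t then
          (if t.Prime ∧ t % 4 = 3 ∧ 3 < t then (1 : ℝ) / t else 0) else 0)) := by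
    refine sum_le_sum fun t ht => ?_
    obtain ⟨hr, hp, h4, hyt⟩ := mem_filter.1 ht
    have ht0 : (0 : ℝ) < t := by exact_mod_cast hp.pos
    have hd : ((J / t : ℕ) : ℝ) ≤ (J : ℝ) / t := Nat.cast_div_le
    rw [if_pos ⟨hp, h4, by omega⟩]
    have e1 : 2 * (J : ℝ) * (1 / t) = J / t + J / t := by ring
    have hn : (0 : ℝ) ≤ J / t := by positivity
    by_cases hc : J < t
    · rw [if_pos hc]
      have hle : (t : ℝ) ≤ ((q : ℝ) + 1) * J := by
        have : t ≤ (q + 1) * J := by have := mem_range.1 hr; omega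
        exact_mod_cast this
      have : (1 : ℝ) ≤ ((q : ℝ) + 1) * J * (1 / t) := by
        rw [mul_one_div, le_div_iff₀ ht0]; linarith
      linarith
    · rw [if_neg hc]
      have hle : (t : ℝ) ≤ J := by exact_mod_cast not_lt.1 hc
      have : (1 : ℝ) ≤ J / t := by rw [le_div_iff₀ ht0]; linarith
      linarith
  replace h3 := h2.trans h3
  rw [sum_add_distrib, ← mul_sum, ← mul_sum] at h3
  have h4 := mul_lt_mul_of_pos_left hA (by positivity : (0 : ℝ) < 2 * J)
  have h5 := mul_lt_mul_of_pos_left hB (by positivity : (0 : ℝ) < ((q : ℝ) + 1) * J)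
  have e2 : ((q : ℝ) + 1) * J * (1 / (2 * ((q : ℝ) + 1))) = J / 2 := by field_simp
  rw [e2] at h5
  linarith

theorem small_prod (ρ : ℝ) (hρ : 0 < ρ) :
    ∃ w : ℕ, 40 ≤ w ∧ ∏ t ∈ T3 w, (((t : ℝ) - 2) / ((t : ℝ) - 1)) ≤ ρ := by
  have hnn : ∀ t : ℕ, 0 ≤ (if t.Prime ∧ t % 4 = 3 ∧ 3 < t then (1 : ℝ) / t else 0) := by
    intro t; split_ifs <;> positivity
  have ht := (not_summable_iff_tendsto_nat_atTop_of_nonneg hnn).1 sp_not_summable
  obtain ⟨n, hn, hn41⟩ := ((ht.eventually_ge_atTop (-Real.log ρ)).and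
    (Filter.eventually_ge_atTop 41)).exists
  obtain ⟨w, rfl⟩ : ∃ w, n = w + 1 := ⟨n - 1, by omega⟩
  refine ⟨w, by omega, ?_⟩
  rw [← sum_filter] at hn
  have h1 : ∏ t ∈ T3 w, (((t : ℝ) - 2) / ((t : ℝ) - 1)) ≤
      ∏ t ∈ T3 w, Real.exp (-((1 : ℝ) / t)) := by
    refine prod_le_prod (fun t ht => ?_) (fun t ht => ?_)
    · have h3 : (3 : ℝ) < t := by exact_mod_cast (mem_filter.1 ht).2.2.2
      exact div_nonneg (by linarith) (by linarith)
    · have h3 : (3 : ℝ) < t := by exact_mod_cast (mem_filter.1 ht).2.2.2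
      have h4 := Real.add_one_le_exp (-((1 : ℝ) / t))
      refine le_trans ?_ h4
      have h5 : -((1 : ℝ) / t) + 1 = ((t : ℝ) - 1) / t := by field_simp; ring
      rw [h5, div_le_div_iff₀ (by linarith) (by linarith)]
      nlinarith
  rw [← Real.exp_sum, sum_neg_distrib] at h1
  refine h1.trans ?_
  rw [← Real.exp_log hρ]
  refine Real.exp_le_exp.2 ?_
  have : -Real.log ρ ≤ ∑ t ∈ T3 w, (1 : ℝ) / t := hn
  linarith

theorem bc_step {M t : ℕ} (ht : t.Prime) (hc : Nat.Coprime M t) (A B : Finset ℕ)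
    (hB : ∀ b ∈ B, b < M * t) (h1 : ∀ b ∈ B, b % M ∈ A)
    (h2 : ∀ r ∈ A, ∃ α : ZMod t, α ≠ 0 ∧ ∀ b ∈ B, b % M = r → (b : ZMod t) ≠ 0 ∧ (b : ZMod t) ≠ α) :
    B.card ≤ (t - 2) * A.card := by
  have := Fact.mk ht
  refine card_le_mul_card_image_of_maps_to (f := fun b => b % M) h1 _ fun r hr => ?_
  obtain ⟨α, h0, hα⟩ := h2 r hr
  have e : (univ \ {0, α} : Finset (ZMod t)).card = t - 2 := by
    rw [card_univ_sdiff, ZMod.card, card_pair h0.symm]
  rw [← e]
  refine card_le_card_of_injOn (fun b : ℕ => (b : ZMod t)) (fun b hb => ?_) fun b hb b' hb' h => ?_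
  · obtain ⟨hb1, hb2⟩ := mem_filter.1 (mem_coe.1 hb)
    obtain ⟨a1, a2⟩ := hα b hb1 hb2
    simp [a1, a2]
  · obtain ⟨hb1, hb2⟩ := mem_filter.1 (mem_coe.1 hb)
    obtain ⟨hb1', hb2'⟩ := mem_filter.1 (mem_coe.1 hb')
    have a1 : b ≡ b' [MOD M] := hb2.trans hb2'.symm
    have a2 : b ≡ b' [MOD t] := (ZMod.natCast_eq_natCast_iff _ _ _).1 h
    exact ((Nat.modEq_and_modEq_iff_modEq_mul hc).1 ⟨a1, a2⟩).eq_of_lt_of_lt (hB b hb1) (hB b' hb1')

theorem bc_mod {c M : ℕ} (h : c ∣ M) (b : ℕ) : ((b % M : ℕ) : ZMod c) = b :=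
  (ZMod.natCast_eq_natCast_iff _ _ _).2 ((Nat.mod_modEq b M).of_dvd h)

theorem bad_count (T : Finset ℕ) (hT : ∀ t ∈ T, t.Prime ∧ t % 4 = 3 ∧ 3 < t) (g M : ℕ)
    (hM : 0 < M) (hg : g ∣ M) (hc : ∀ t ∈ T, Nat.Coprime M t) (σ : ℝ) (hσ : σ ≠ 0) :
    ((range (M * ∏ t ∈ T, t)).filter fun b => Nat.Coprime b (M * ∏ t ∈ T, t) ∧
      ∀ t ∈ T, 0 < σ * R (g * t) (b * b)).card ≤ Nat.totient M * ∏ t ∈ T, (t - 2) := by
  induction T using Finset.induction_on with
  | empty =>
    rw [prod_empty, prod_empty, mul_one, mul_one, Nat.totient_eq_card_coprime]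
    exact card_le_card fun b hb => mem_filter.2 ⟨(mem_filter.1 hb).1, (mem_filter.1 hb).2.1.symm⟩
  | insert t T htT ih =>
    have ih' := ih (fun s hs => hT s (mem_insert_of_mem hs)) fun s hs => hc s (mem_insert_of_mem hs)
    obtain ⟨hp, h4, h3⟩ := hT t (mem_insert_self _ _)
    have hMt := hc t (mem_insert_self _ _)
    have hg0 : g ≠ 0 := by
      rintro rfl
      exact hM.ne' (zero_dvd_iff.1 hg)
    have hgt : Nat.Coprime g t := Nat.Coprime.coprime_dvd_left hg hMt
    have hco : Nat.Coprime (M * ∏ s ∈ T, s) t := by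
      refine Nat.Coprime.mul_left hMt (Nat.Coprime.prod_left fun s hs => ?_)
      refine (Nat.coprime_primes (hT s (mem_insert_of_mem hs)).1 hp).2 ?_
      rintro rfl
      exact htT hs
    have hpos : 0 < M * ∏ s ∈ T, s :=
      Nat.mul_pos hM (prod_pos fun s hs => (hT s (mem_insert_of_mem hs)).1.pos)
    have hg1 : g ∣ M * ∏ s ∈ T, s := hg.mul_right _
    have e : M * ∏ s ∈ insert t T, s = (M * ∏ s ∈ T, s) * t := by
      rw [prod_insert htT]; ring
    rw [e, prod_insert htT, mul_left_comm]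
    refine le_trans (bc_step hp hco _ _ (fun b hb => mem_range.1 (mem_filter.1 hb).1)
      (fun b hb => ?_) fun r hr => ?_) (Nat.mul_le_mul_left _ ih')
    · obtain ⟨-, a1, a2⟩ := mem_filter.1 hb
      refine mem_filter.2 ⟨mem_range.2 (Nat.mod_lt _ hpos), ?_, fun s hs => ?_⟩
      · have := (Nat.Coprime.coprime_mul_right_right a1)
        rw [Nat.Coprime, ← Nat.gcd_rec, Nat.gcd_comm]
        exact this
      · have hd : g * s ∣ M * ∏ s ∈ T, s := Nat.mul_dvd_mul hg (dvd_prod_of_mem _ hs)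
        rw [R_congr (c := g * s) (v := b * b) (by rw [Nat.cast_mul, Nat.cast_mul, bc_mod hd])]
        exact a2 s (mem_insert_of_mem hs)
    · have key : ∀ b : ℕ, Nat.Coprime b ((M * ∏ s ∈ T, s) * t) → b % (M * ∏ s ∈ T, s) = r →
          R (g * t) (b * b) = R g (r * r * t) * R t (b * b * g) := by
        intro b a1 a3
        have b1 : Nat.Coprime b g :=
          Nat.Coprime.coprime_dvd_right hg1 (Nat.Coprime.coprime_mul_right_right a1)
        have b2 : Nat.Coprime b t := Nat.Coprime.coprime_mul_left_right a1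
        rw [R_mul hg0 hp.ne_zero hgt _ (b1.mul_left b1) (b2.mul_left b2),
          R_congr (c := g) (u := b * b * t) (v := r * r * t) (by
            rw [← a3]
            simp only [Nat.cast_mul, bc_mod hg1])]
      have nz : ∀ b : ℕ, Nat.Coprime b t → (b : ZMod t) ≠ 0 := fun b h => by
        rw [Ne, ZMod.natCast_eq_zero_iff]
        exact (Nat.Prime.coprime_iff_not_dvd hp).1 h.symm
      by_cases h0 : R g (r * r * t) = 0
      · refine ⟨(1 : ℕ), nz 1 (Nat.coprime_one_left t), fun b hb a3 => ?_⟩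
        obtain ⟨-, a1, a2⟩ := mem_filter.1 hb
        have := a2 t (mem_insert_self _ _)
        rw [key b a1 a3, h0, zero_mul, mul_zero] at this
        exact absurd this (lt_irrefl _)
      · obtain ⟨α, c1, c2⟩ := both_signs hp h4 h3 g hgt (-σ * R g (r * r * t))
          (mul_ne_zero (neg_ne_zero.2 hσ) h0)
        refine ⟨α, nz α c1, fun b hb a3 => ?_⟩
        obtain ⟨-, a1, a2⟩ := mem_filter.1 hb
        refine ⟨nz b (Nat.Coprime.coprime_mul_left_right a1), fun hbα => ?_⟩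
        have := a2 t (mem_insert_self _ _)
        rw [key b a1 a3, R_congr (c := t) (u := b * b * g) (v := α * α * g) (by
          simp only [Nat.cast_mul, hbα])] at this
        linarith

end Pool.Agent.FS.LargeCof
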