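import Pool.Agent.FS.LargeCof.A
import Pool.Agent.Lib.MP_4b8564_nt.GT.LFcore
import Pool.Agent.Lib.MP_4b8564_nt.Sg.GGge

/-!
A sieve bound that is uniform in the modulus, and the number of primes in bad classes.
-/

open Finset
open scoped Classical

noncomputable section

namespace Pool.Agent.FS.LargeCof

open Pool.Agent.Lib.MP_4b8564_nt Pool.Agent.Lib.MP_4b8564_nt.GT

theorem class_le (w Y M b L : ℕ) (hw : 40 ≤ w) (hY : 1 ≤ Y) (hM : ∀ p ∈ Sg.PP w Y, ¬ p ∣ M)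
    (hL : 2 * Y ^ 6 ≤ L) :
    Sg.GG (Sg.PP w Y) Y *
      (((range L).filter fun h => (M * h + b).Prime ∧ Y < M * h + b).card : ℝ) ≤ 4 * L := by
  have hP2 : ∀ p ∈ Sg.PP w Y, 2 ≤ p := fun p hp => (LFcoreAux.prime_PP hp).two_le
  obtain ⟨e, he0, he, hexp⟩ := Sg.expand (Sg.PP w Y) hP2 Y hY
  have hG := Sg.one_le_GG (Sg.PP w Y) hP2 Y hY
  have hY6 : 0 < Y ^ 6 := by positivity
  have hL0 : 0 < L := by omega
  have hL' : (0 : ℝ) < L := by exact_mod_cast hL0
  have hS : Sep (fun (_ : Unit) (_ : Unit) => (1 : ℤ)) univ 1 :=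
    ⟨fun _ _ => by simp, fun _ _ => ⟨(), one_ne_zero⟩, fun _ _ _ _ h => (h rfl).elim⟩
  have hP : ∀ p ∈ Sg.PP w Y, p.Prime ∧ 5 ≤ p ∧ 1 < p ∧ ¬ (p : ℤ) ∣ (M : ℤ) := fun p hp => by
    have h1 := (mem_Ioc.1 (mem_filter.1 hp).1).1
    exact ⟨LFcoreAux.prime_PP hp, by omega, by omega,
      fun h => hM p hp (Int.natCast_dvd_natCast.1 h)⟩
  have hb := box_lf (fun (_ : Unit) (_ : Unit) => (1 : ℤ)) univ 1 hS (Sg.PP w Y) M b hP (Y ^ 2) L
    (Nat.one_le_pow _ _ hY) hL0 e he0 he fun _ => 0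
  have hE : ∏ p ∈ Sg.PP w Y, (1 + 4 * 5 ^ (univ : Finset Unit).card / (p : ℝ) ^ 2) ≤ 3 := by
    refine (LFcoreAux.euler w Y _ 1 (by simp)).trans ?_
    have h1 : 8 * 5 ^ 1 / ((w : ℝ) + 1) ≤ 1 := by
      have : (40 : ℝ) ≤ w := by exact_mod_cast hw
      rw [div_le_one (by linarith)]
      linarith
    have h2 := Real.exp_one_lt_d9
    exact (Real.exp_le_exp.2 h1).trans (by linarith)
  have hE2 : 2 * (Fintype.card Unit : ℝ) * ((Y ^ 2 : ℕ) : ℝ) ^ (3 * (univ : Finset Unit).card) / L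
      ≤ 1 := by
    rw [div_le_one hL']
    have : ((2 * Y ^ 6 : ℕ) : ℝ) ≤ L := by exact_mod_cast hL
    refine le_trans (le_of_eq ?_) this
    simp only [Fintype.card_unique, card_univ]
    push_cast
    ring
  have e1 : bav L (fun h : Unit → ℤ => ∏ _s ∈ (univ : Finset Unit),
      ∑ U ∈ Sg.fam (Sg.PP w Y) (Y ^ 2),
        e U * ∏ p ∈ U, gz p ((M : ℤ) * (0 + ∑ v, 1 * h v) + b)) =
      (∑ i ∈ range L, Sg.beta (Sg.PP w Y) Y (M * i + b) ^ 2 / Sg.GG (Sg.PP w Y) Y) / L := by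
    unfold bav
    rw [← av_equiv (Equiv.funUnique Unit (Fin L)).symm, av, Fintype.card_fin,
      ← Fin.sum_univ_eq_sum_range
        (fun i => Sg.beta (Sg.PP w Y) Y (M * i + b) ^ 2 / Sg.GG (Sg.PP w Y) Y) L]
    congr 1
    refine sum_congr rfl fun i _ => ?_
    rw [hexp]
    simp only [univ_unique, prod_singleton, sum_singleton, LFcoreAux.gS_eq]
    refine sum_congr rfl fun U _ => ?_
    congr 1
    refine prod_congr rfl fun p _ => ?_
    congr 1
    simp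
  have h3 : (∑ i ∈ range L, Sg.beta (Sg.PP w Y) Y (M * i + b) ^ 2 / Sg.GG (Sg.PP w Y) Y) / L
      ≤ 4 := by
    rw [← e1]
    have := (abs_le.1 hb).2
    linarith
  rw [div_le_iff₀ hL'] at h3
  refine le_trans ?_ h3
  rw [mul_comm, ← nsmul_eq_mul, ← sum_const]
  refine le_trans (le_of_eq (sum_congr rfl fun i hi => ?_))
    (sum_le_sum_of_subset_of_nonneg (filter_subset _ _) fun _ _ _ => by positivity)
  obtain ⟨-, h1, h2⟩ := mem_filter.1 hi
  rw [Sg.beta_eq_GG _ _ _ fun p hp hd => ?_, sq, mul_div_assoc, div_self (by linarith), mul_one]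
  have h4 := (Nat.prime_dvd_prime_iff_eq (LFcoreAux.prime_PP hp) h1).1 hd
  have h5 := (mem_Ioc.1 (mem_filter.1 hp).1).2
  omega

theorem totient_prod_primes (T : Finset ℕ) (hT : ∀ t ∈ T, t.Prime) :
    Nat.totient (∏ t ∈ T, t) = ∏ t ∈ T, (t - 1) := by
  induction T using Finset.induction_on with
  | empty => simp
  | insert a T ha ih =>
    have hp := hT a (mem_insert_self _ _)
    have hT' : ∀ t ∈ T, t.Prime := fun t ht => hT t (mem_insert_of_mem ht)
    rw [prod_insert ha, prod_insert ha, Nat.totient_mul, Nat.totient_prime hp, ih hT']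
    refine Nat.Coprime.prod_right fun t ht => (Nat.coprime_primes hp (hT' t ht)).2 ?_
    rintro rfl
    exact ha ht

theorem bad_primes (w Y g x : ℕ) (hw : 40 ≤ w) (hY : w ≤ Y) (hg : 0 < g)
    (hgY : ∀ l : ℕ, l.Prime → l ∣ g → Y < l) (hx : primorial w * g * (2 * Y ^ 6) ≤ x)
    (σ : ℝ) (hσ : σ ≠ 0) :
    Real.log Y * (((range (x + 1)).filter fun p => p.Prime ∧ primorial w * g < p ∧ Y < p ∧
      ∀ t ∈ T3 w, 0 < σ * R (g * t) (p * p)).card : ℝ) ≤
      8 * (∏ t ∈ T3 w, (((t : ℝ) - 2) / ((t : ℝ) - 1))) * x := by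
  have hY1 : 1 ≤ Y := by omega
  have hT : ∀ t ∈ T3 w, t.Prime ∧ t % 4 = 3 ∧ 3 < t := fun t ht => (mem_filter.1 ht).2
  have hTw : ∀ t ∈ T3 w, t ≤ w := fun t ht =>
    Nat.lt_succ_iff.1 (mem_range.1 (mem_filter.1 ht).1)
  obtain ⟨A, hA⟩ : ∃ A, A = (range (w + 1)).filter Nat.Prime := ⟨_, rfl⟩
  have hsub : T3 w ⊆ A := fun t ht => hA ▸ mem_filter.2 ⟨(mem_filter.1 ht).1, (hT t ht).1⟩
  have hAp : ∀ p ∈ A \ T3 w, p.Prime ∧ p ≤ w := fun p hp => by
    have h1 := (mem_sdiff.1 hp).1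
    rw [hA] at h1
    exact ⟨(mem_filter.1 h1).2, Nat.lt_succ_iff.1 (mem_range.1 (mem_filter.1 h1).1)⟩
  obtain ⟨W0, hW0⟩ : ∃ W0, W0 = ∏ p ∈ A \ T3 w, p := ⟨_, rfl⟩
  obtain ⟨Q, hQ⟩ : ∃ Q, Q = ∏ t ∈ T3 w, t := ⟨_, rfl⟩
  have hW : primorial w = W0 * Q := by
    rw [hW0, hQ, prod_sdiff hsub, hA]
    rfl
  have hW0p : 0 < W0 := hW0 ▸ prod_pos fun p hp => (hAp p hp).1.pos
  have hQp : 0 < Q := hQ ▸ prod_pos fun t ht => (hT t ht).1.pos
  have hc0 : ∀ t ∈ T3 w, Nat.Coprime W0 t := fun t ht => by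
    rw [hW0]
    refine Nat.Coprime.prod_left fun p hp => (Nat.coprime_primes (hAp p hp).1 (hT t ht).1).2 ?_
    rintro rfl
    exact (mem_sdiff.1 hp).2 ht
  have hcg : ∀ t : ℕ, t.Prime → t ≤ w → Nat.Coprime g t := fun t ht htw =>
    ((Nat.Prime.coprime_iff_not_dvd ht).2 fun h => by have := hgY t ht h; omega).symm
  have hc : ∀ t ∈ T3 w, Nat.Coprime (g * W0) t := fun t ht =>
    Nat.Coprime.mul_left (hcg t (hT t ht).1 (hTw t ht)) (hc0 t ht)
  have hbad := bad_count (T3 w) hT g (g * W0) (by positivity) (dvd_mul_right _ _) hc σ hσ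
  rw [← hQ] at hbad
  obtain ⟨M, hM⟩ : ∃ M, M = g * W0 * Q := ⟨_, rfl⟩
  have hMW : primorial w * g = M := by rw [hW, hM]; ring
  have hM0 : 0 < M := by rw [hM]; positivity
  rw [← hM] at hbad
  rw [hMW] at hx ⊢
  obtain ⟨L, hL⟩ : ∃ L, L = x / M + 1 := ⟨_, rfl⟩
  have hL1 : 2 * Y ^ 6 ≤ x / M := (Nat.le_div_iff_mul_le hM0).2 (by rwa [mul_comm])
  have hY6 : 0 < Y ^ 6 := by positivity
  have hML : M * L ≤ 2 * x := by
    have h1 : M * (x / M) ≤ x := Nat.mul_div_le x M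
    have h2 : L ≤ 2 * (x / M) := by omega
    calc M * L ≤ M * (2 * (x / M)) := Nat.mul_le_mul_left _ h2
      _ = 2 * (M * (x / M)) := by ring
      _ ≤ 2 * x := by omega
  have hMP : ∀ p ∈ Sg.PP w Y, ¬ p ∣ M := fun p hp hd => by
    have h1 := mem_Ioc.1 (mem_filter.1 hp).1
    have h2 := LFcoreAux.prime_PP hp
    rw [← hMW] at hd
    rcases (Nat.Prime.dvd_mul h2).1 hd with h | h
    · have := h2.dvd_primorial_iff.1 h
      omega
    · have := hgY p h2 h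
      omega
  set B := (range M).filter fun b => Nat.Coprime b M ∧
    ∀ t ∈ T3 w, 0 < σ * R (g * t) (b * b) with hB
  set P := (range (x + 1)).filter fun p => p.Prime ∧ M < p ∧ Y < p ∧
    ∀ t ∈ T3 w, 0 < σ * R (g * t) (p * p) with hP
  have hmap : ∀ p ∈ P, p % M ∈ B := fun p hp => by
    obtain ⟨-, h1, h2, -, h4⟩ := mem_filter.1 hp
    refine mem_filter.2 ⟨mem_range.2 (Nat.mod_lt _ hM0), ?_, fun t ht => ?_⟩
    · have h5 : Nat.Coprime p M := (Nat.Prime.coprime_iff_not_dvd h1).2 fun h =>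
        absurd (Nat.le_of_dvd hM0 h) (by omega)
      unfold Nat.Coprime at h5 ⊢
      rw [← Nat.gcd_rec, Nat.gcd_comm]
      exact h5
    · have h5 : g * t ∣ M := by
        rw [hM, hQ]
        exact mul_dvd_mul (dvd_mul_right _ _) (dvd_prod_of_mem _ ht)
      have h6 : p % M ≡ p [MOD g * t] := (Nat.mod_modEq p M).of_dvd h5
      rw [R_congr ((ZMod.natCast_eq_natCast_iff _ _ _).2 (h6.mul h6))]
      exact h4 t ht
  have hG := Sg.one_le_GG (Sg.PP w Y) (fun p hp => (LFcoreAux.prime_PP hp).two_le) Y hY1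
  have h1 : Sg.GG (Sg.PP w Y) Y * P.card ≤ B.card * (4 * L) := by
    rw [card_eq_sum_card_fiberwise hmap]
    push_cast
    rw [mul_sum, ← nsmul_eq_mul, ← sum_const]
    refine sum_le_sum fun b _ => le_trans ?_ (class_le w Y M b L hw hY1 hMP (by omega))
    refine mul_le_mul_of_nonneg_left ?_ (by linarith)
    refine Nat.cast_le.2 (card_le_card_of_injOn (fun p => p / M) (fun p hp => ?_)
      fun p hp p' hp' h => ?_)
    · obtain ⟨hp1, hp2⟩ := mem_filter.1 (mem_coe.1 hp)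
      obtain ⟨h0, h1, -, h3, -⟩ := mem_filter.1 hp1
      have e : M * (p / M) + b = p := hp2 ▸ Nat.div_add_mod p M
      refine mem_coe.2 (mem_filter.2 ⟨mem_range.2 ?_, ?_⟩)
      · have : p / M ≤ x / M := Nat.div_le_div_right (Nat.lt_succ_iff.1 (mem_range.1 h0))
        change p / M < L
        omega
      · change (M * (p / M) + b).Prime ∧ Y < M * (p / M) + b
        rw [e]
        exact ⟨h1, h3⟩
    · have e1 := (mem_filter.1 (mem_coe.1 hp)).2
      have e2 := (mem_filter.1 (mem_coe.1 hp')).2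
      have h' : p / M = p' / M := h
      rw [← Nat.div_add_mod p M, ← Nat.div_add_mod p' M, e1, e2, h']
  have hgW : Nat.Coprime g W0 := by
    rw [hW0]
    exact Nat.Coprime.prod_right fun p hp => hcg p (hAp p hp).1 (hAp p hp).2
  have hφ1 : Nat.totient (g * W0) ≤ g * Nat.totient W0 := by
    rw [Nat.totient_mul hgW]
    exact Nat.mul_le_mul_right _ (Nat.totient_le g)
  have hφ2 : Nat.totient (primorial w) = Nat.totient W0 * ∏ t ∈ T3 w, (t - 1) := by
    rw [hW, Nat.totient_mul (hQ ▸ Nat.Coprime.prod_right hc0), hQ,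
      totient_prod_primes _ fun t ht => (hT t ht).1]
  have c1 : ((∏ t ∈ T3 w, (t - 1) : ℕ) : ℝ) = ∏ t ∈ T3 w, ((t : ℝ) - 1) := by
    rw [Nat.cast_prod]
    refine prod_congr rfl fun t ht => ?_
    have := (hT t ht).2.2
    rw [Nat.cast_sub (by omega), Nat.cast_one]
  have c2 : ((∏ t ∈ T3 w, (t - 2) : ℕ) : ℝ) = ∏ t ∈ T3 w, ((t : ℝ) - 2) := by
    rw [Nat.cast_prod]
    refine prod_congr rfl fun t ht => ?_
    have := (hT t ht).2.2
    rw [Nat.cast_sub (by omega), Nat.cast_ofNat]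
  have p1 : 0 < ∏ t ∈ T3 w, ((t : ℝ) - 1) := prod_pos fun t ht => by
    have : (3 : ℝ) < t := by exact_mod_cast (hT t ht).2.2
    linarith
  have p2 : 0 ≤ ∏ t ∈ T3 w, ((t : ℝ) - 2) := prod_nonneg fun t ht => by
    have : (3 : ℝ) < t := by exact_mod_cast (hT t ht).2.2
    linarith
  have hB1 : (B.card : ℝ) ≤ g * Nat.totient W0 * ∏ t ∈ T3 w, ((t : ℝ) - 2) := by
    rw [← c2]
    exact_mod_cast hbad.trans (Nat.mul_le_mul_right _ hφ1)
  have hGG := Sg.GG_ge w Y hY1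
  rw [hφ2, Nat.cast_mul, c1] at hGG
  have hf : (0 : ℝ) < Nat.totient W0 := by exact_mod_cast Nat.totient_pos.2 hW0p
  have hWp : (0 : ℝ) < primorial w := by exact_mod_cast primorial_pos w
  have hML' : (primorial w : ℝ) * g * L ≤ 2 * x := by
    rw [← hMW] at hML
    exact_mod_cast hML
  rw [prod_div_distrib]
  generalize ∏ t ∈ T3 w, ((t : ℝ) - 1) = a at *
  generalize ∏ t ∈ T3 w, ((t : ℝ) - 2) = c at *
  have h2 : (Nat.totient W0 : ℝ) * a / primorial w * Real.log Y * P.card ≤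
      g * Nat.totient W0 * c * (4 * L) :=
    ((mul_le_mul_of_nonneg_right hGG (Nat.cast_nonneg _)).trans h1).trans
      (mul_le_mul_of_nonneg_right hB1 (by positivity))
  have h3 : Real.log Y * P.card = ((Nat.totient W0 : ℝ) * a / primorial w * Real.log Y * P.card) *
      (primorial w / (Nat.totient W0 * a)) := by
    field_simp
  rw [h3]
  refine (mul_le_mul_of_nonneg_right h2 (by positivity)).trans ?_
  have h4 : (g : ℝ) * Nat.totient W0 * c * (4 * L) * (primorial w / (Nat.totient W0 * a)) =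
      4 * (c / a) * (primorial w * g * L) := by
    field_simp
  rw [h4]
  calc 4 * (c / a) * ((primorial w : ℝ) * g * L) ≤ 4 * (c / a) * (2 * x) :=
        mul_le_mul_of_nonneg_left hML' (by positivity)
    _ = 8 * (c / a) * x := by ring

end Pool.Agent.FS.LargeCof
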